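import Mathlib

namespace Pool.Agent.Results.MP_8a6e71_co.NoDisjoint

/-- States of a Boolean network on `n` components. -/
abbrev State (n : ℕ) := Fin n → Bool

/-- Boolean networks. -/
abbrev Net (n : ℕ) := State n → State n

/-- A signed digraph on `Fin n`: `arc s j i` says there is an arc from `j` to `i` that is
positive when `s = true` and negative when `s = false`. -/
structure SignedDigraph (n : ℕ) where
  arc : Bool → Fin n → Fin n → Prop

/-- The signed interaction graph: `x` and `y` differ only at `j`, where `x j < y j`, and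
`f_i` goes up (positive arc) or down (negative arc) from `x` to `y`. -/
def interaction {n : ℕ} (f : Net n) : SignedDigraph n where
  arc s j i := ∃ x : State n, x j = false ∧
    f x i = !s ∧ f (Function.update x j true) i = s

/-- A cycle with `m + 1` distinct vertices `v t`, using the arc of sign `s t` from `v t` to
`v (t + 1)` (indices modulo `m + 1`). -/
structure Cycle {n : ℕ} (G : SignedDigraph n) where
  m : ℕ
  v : Fin (m + 1) → Fin n
  s : Fin (m + 1) → Bool
  inj : Function.Injective v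
  arcs : ∀ t, G.arc (s t) (v t) (v (t + 1))

/-- The sign of a cycle, the product of the signs of its arcs. -/
def Cycle.sign {n : ℕ} {G : SignedDigraph n} (C : Cycle G) : ℤ :=
  ∏ t, if C.s t then 1 else -1

/-- Arcs of the asynchronous graph. -/
def Step {n : ℕ} (f : Net n) (x y : State n) : Prop :=
  ∃ i, x i ≠ f x i ∧ y = Function.update x i (!x i)

def IsTrap {n : ℕ} (f : Net n) (X : Set (State n)) : Prop :=
  ∀ x ∈ X, ∀ y, Step f x y → y ∈ X

/-- Attractors: inclusion-minimal nonempty trap sets. -/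
def IsAttractor {n : ℕ} (f : Net n) (X : Set (State n)) : Prop :=
  Minimal (fun Y => Y.Nonempty ∧ IsTrap f Y) X

def IsSubspace {n : ℕ} (S : Set (State n)) : Prop :=
  ∃ (I : Set (Fin n)) (c : Fin n → Bool), S = {x | ∀ i ∈ I, x i = c i}

/-- `S` is the smallest subspace containing `X`. -/
def IsHull {n : ℕ} (X S : Set (State n)) : Prop :=
  IsLeast {T | IsSubspace T ∧ X ⊆ T} S

def Separating {n : ℕ} (f : Net n) : Prop :=
  ∀ A B, IsAttractor f A → IsAttractor f B → A ≠ B →
    ∀ S T, IsHull A S → IsHull B T → S ∩ T = ∅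

def NonSeparating {n : ℕ} (G : SignedDigraph n) : Prop :=
  ∃ f : Net n, G = interaction f ∧ ¬ Separating f

def nae (a b c : Bool) : Bool := !((a == b) && (b == c))

def net : Net 5 := fun x =>
  ![xor (x 3) (x 4), nae (x 0) (x 2) (x 3), nae (x 0) (x 1) (x 4), xor (x 1) (x 2),
    xor (x 1) (x 3)]

def under (j i : Fin 5) : Bool :=
  (j, i) ∈ [((0 : Fin 5), (1 : Fin 5)), (0, 2), (1, 2), (1, 3), (1, 4), (2, 1), (2, 3), (3, 0),
    (3, 1), (3, 4), (4, 0), (4, 2)]

lemma arc_under : ∀ (s : Bool) (j i : Fin 5) (x : State 5), x j = false →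
    net x i = !s → net (Function.update x j true) i = s → under j i = true := by
  decide +kernel

lemma no_two : ∀ S T : Finset (Fin 5), S.Nonempty → T.Nonempty →
    (∀ a ∈ S, ∃ b ∈ S, under a b = true) → (∀ a ∈ T, ∃ b ∈ T, under a b = true) →
    ∃ a ∈ S, a ∈ T := by
  decide +kernel

lemma cyc_closed (C : Cycle (interaction net)) :
    ∀ a ∈ Finset.univ.image C.v, ∃ b ∈ Finset.univ.image C.v, under a b = true := by
  intro a ha
  obtain ⟨t, -, rfl⟩ := Finset.mem_image.1 ha
  obtain ⟨x, h1, h2, h3⟩ := C.arcs t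
  exact ⟨C.v (t + 1), Finset.mem_image_of_mem _ (Finset.mem_univ _), arc_under _ _ _ x h1 h2 h3⟩

lemma meet (C D : Cycle (interaction net)) : ∃ t u, C.v t = D.v u := by
  obtain ⟨a, h1, h2⟩ := no_two (Finset.univ.image C.v) (Finset.univ.image D.v)
    (Finset.univ_nonempty.image _) (Finset.univ_nonempty.image _) (cyc_closed C) (cyc_closed D)
  obtain ⟨t, -, rfl⟩ := Finset.mem_image.1 h1
  obtain ⟨u, -, hu⟩ := Finset.mem_image.1 h2
  exact ⟨t, u, hu.symm⟩

def code (x : State 5) : ℕ :=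
  (x 0).toNat + 2 * (x 1).toNat + 4 * (x 2).toNat + 8 * (x 3).toNat + 16 * (x 4).toNat

def inB (x : State 5) : Bool :=
  code x ∈ [6, 7, 10, 11, 13, 14, 15, 19, 22, 23, 26, 27, 28, 29, 30]

def B : Set (State 5) := {x | inB x = true}

def zero : State 5 := fun _ => false

lemma B_trap' : ∀ x : State 5, inB x = true → ∀ i, x i ≠ net x i →
    inB (Function.update x i (!x i)) = true := by decide +kernel

/-- Following a list of flips, all of them legal, from `x` leads to `y`. -/
def go (x : State 5) : List (Fin 5) → State 5 → Bool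
  | [], y => x == y
  | i :: l, y => (x i != net x i) && go (Function.update x i (!x i)) l y

lemma go_mem {X : Set (State 5)} (hX : IsTrap net X) :
    ∀ (l : List (Fin 5)) (x y : State 5), go x l y = true → x ∈ X → y ∈ X := by
  intro l
  induction l with
  | nil => intro x y h hx; simp only [go, beq_iff_eq] at h; exact h ▸ hx
  | cons i l ih =>
    intro x y h hx
    simp only [go, Bool.and_eq_true, bne_iff_ne] at h
    exact ih _ _ h.2 (hX x hx _ ⟨i, h.1, rfl⟩)

def root : State 5 := ![false, true, true, false, false]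

def toRoot (c : ℕ) : List (Fin 5) := match c with
  | 6 => []
  | 7 => [0]
  | 10 => [2, 3]
  | 11 => [2, 3, 0]
  | 13 => [4, 0, 1, 4, 3]
  | 14 => [3]
  | 15 => [3, 0]
  | 19 => [3, 0, 2, 4, 3]
  | 22 => [0, 2, 3, 0, 2, 4, 3]
  | 23 => [2, 3, 0, 2, 4, 3]
  | 26 => [2, 4, 3]
  | 27 => [0, 2, 4, 3]
  | 28 => [1, 4, 3]
  | 29 => [0, 1, 4, 3]
  | 30 => [4, 3]
  | _ => []

def fromRoot (c : ℕ) : List (Fin 5) := match c with
  | 6 => []
  | 7 => [4, 0, 2, 3, 4, 2, 3]
  | 10 => [4, 0, 2, 3, 0, 4]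
  | 11 => [4, 0, 2, 3, 4]
  | 13 => [4, 0, 2, 3, 4, 2, 1]
  | 14 => [4, 0, 2, 3, 0, 2, 4]
  | 15 => [4, 0, 2, 3, 4, 2]
  | 19 => [4, 0, 2]
  | 22 => [4]
  | 23 => [4, 0]
  | 26 => [4, 0, 2, 3, 0]
  | 27 => [4, 0, 2, 3]
  | 28 => [4, 0, 2, 3, 4, 2, 1, 4, 0]
  | 29 => [4, 0, 2, 3, 4, 2, 1, 4]
  | 30 => [4, 0, 2, 3, 0, 2]
  | _ => []

lemma conn : ∀ x : State 5, inB x = true →
    go x (toRoot (code x)) root = true ∧ go root (fromRoot (code x)) x = true := by
  decide +kernel

lemma attrB : IsAttractor net B := by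
  refine ⟨⟨⟨root, (by decide : inB root = true)⟩, ?_⟩, ?_⟩
  · rintro x hx y ⟨i, hi, rfl⟩
    exact B_trap' x hx i hi
  · rintro Y ⟨⟨x, hx⟩, hY⟩ hsub y hy
    exact go_mem hY _ _ _ (conn y hy).2 (go_mem hY _ _ _ (conn x (hsub hx)).1 hx)

lemma attrZ : IsAttractor net {zero} := by
  refine ⟨⟨⟨zero, rfl⟩, ?_⟩, ?_⟩
  · rintro x rfl y ⟨i, hi, -⟩
    exact absurd (by revert i; decide) hi
  · rintro Y ⟨⟨x, hx⟩, -⟩ hsub y rfl
    have := hsub hx
    rw [Set.mem_singleton_iff] at this
    exact this ▸ hx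

lemma hullB : IsHull B Set.univ := by
  refine ⟨⟨⟨∅, zero, by ext x; simp⟩, Set.subset_univ _⟩, ?_⟩
  rintro T ⟨⟨I, c, rfl⟩, hT⟩ x - i hi
  have key : ∀ (i : Fin 5) (b : Bool), ∃ y : State 5, inB y = true ∧ y i = b := by
    decide +kernel
  obtain ⟨y, hy, hb⟩ := key i (!c i)
  have := hT hy i hi
  rw [hb] at this
  simp at this

lemma hullZ : IsHull {zero} ({zero} : Set (State 5)) := by
  refine ⟨⟨⟨Set.univ, zero, ?_⟩, subset_rfl⟩, fun T hT => hT.2⟩
  ext x
  simp [funext_iff]

/-- Q1 fails: a non-separating signed digraph on five vertices in which any two cycles share a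
vertex; in particular no positive cycle is disjoint from a negative cycle. -/
theorem result : ∃ G : SignedDigraph 5, NonSeparating G ∧
    (∀ C D : Cycle G, ∃ t u, C.v t = D.v u) ∧
    ¬ ∃ C D : Cycle G, C.sign = 1 ∧ D.sign = -1 ∧ Disjoint (Set.range C.v) (Set.range D.v) := by
  refine ⟨interaction net, ⟨net, rfl, fun h => ?_⟩, meet, ?_⟩
  · have hne : B ≠ {zero} := by
      intro e
      have : zero ∈ B := by rw [e]; rfl
      revert this
      simp only [B, Set.mem_ofPred_eq]
      decide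
    have := h B {zero} attrB attrZ hne _ _ hullB hullZ
    simp at this
  · rintro ⟨C, D, -, -, hd⟩
    obtain ⟨t, u, h⟩ := meet C D
    exact Set.disjoint_left.1 hd ⟨t, rfl⟩ ⟨u, h.symm⟩

end Pool.Agent.Results.MP_8a6e71_co.NoDisjoint
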